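import Pool.Agent.L5helper88.CP.Size

/-!
# Nondegenerate critical points can be moved off a hypersurface
-/

set_option autoImplicit false

open Finset MvPolynomial Filter

namespace Pool.Agent.L5helper59.ZT

open Pool.Agent.L5helper88.CP

/-- the Hessian condition at a point -/
def NonDeg {σ : Type} [Fintype σ] (h : MvPolynomial σ ℂ) (p : σ → ℂ) : Prop :=
  ∀ z : σ → ℂ, (∀ j, ∑ i, z i * eval p (pderiv i (pderiv j h)) = 0) → z = 0

/-- the Hessian matrix -/
noncomputable def hess {σ : Type} (h : MvPolynomial σ ℂ) (p : σ → ℂ) : Matrix σ σ ℂ :=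
  Matrix.of fun j i => eval p (pderiv i (pderiv j h))

theorem nonDeg_iff {σ : Type} [Fintype σ] [DecidableEq σ] (h : MvPolynomial σ ℂ) (p : σ → ℂ) :
    NonDeg h p ↔ (hess h p).det ≠ 0 := by
  have hmul : ∀ (z : σ → ℂ) (j : σ),
      ∑ i, z i * eval p (pderiv i (pderiv j h)) = (hess h p).mulVec z j := by
    intro z j
    rw [Matrix.mulVec, dotProduct]
    refine Finset.sum_congr rfl fun i _ => ?_
    simp only [hess, Matrix.of_apply]
    ring
  constructor
  · intro hn hdet
    obtain ⟨v, hv, hv0⟩ := Matrix.exists_mulVec_eq_zero_iff.2 hdet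
    apply hv
    apply hn
    intro j
    rw [hmul, hv0]
    rfl
  · intro hdet z hz
    apply Matrix.eq_zero_of_mulVec_eq_zero hdet
    funext j
    rw [← hmul]
    exact hz j

theorem nonDeg_eventually {σ : Type} [Fintype σ] [DecidableEq σ] (h : MvPolynomial σ ℂ)
    (p : σ → ℂ) (hp : NonDeg h p) (x : ℕ → σ → ℂ) (hx : Tendsto x atTop (nhds p)) :
    ∀ᶠ k in atTop, NonDeg h (x k) := by
  rw [nonDeg_iff] at hp
  have hcont : Continuous fun y => (hess h y).det := by
    apply Continuous.matrix_det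
    apply continuous_matrix
    intro i j
    exact MvPolynomial.continuous_eval _
  have h1 : Tendsto (fun k => (hess h (x k)).det) atTop (nhds (hess h p).det) :=
    (hcont.tendsto p).comp hx
  filter_upwards [h1.eventually_ne hp] with k hk
  exact (nonDeg_iff h (x k)).2 hk

/-- the persistence of one critical point when the linear form moves -/
theorem crit_point_persists {σ : Type} [Fintype σ] [DecidableEq σ] (h : MvPolynomial σ ℂ)
    (c : σ → ℂ) (ck : ℕ → σ → ℂ) (hck : Tendsto ck atTop (nhds c)) (p : σ → ℂ)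
    (h1 : ∀ i, eval p (pderiv i h) = c i) (h2 : NonDeg h p) (U : Set (σ → ℂ)) (hU : U ∈ nhds p) :
    ∀ᶠ k in atTop, ∃ p' ∈ U, (∀ i, eval p' (pderiv i h) = ck k i) ∧ NonDeg h p' := by
  set Q : σ → MvPolynomial (σ ⊕ σ) ℂ := fun j =>
    rename Sum.inr (pderiv j h) - X (Sum.inl j) with hQ
  have hev : ∀ (c p : σ → ℂ) (j : σ), eval (Sum.elim c p) (Q j) = eval p (pderiv j h) - c j := by
    intro c p j
    simp only [hQ, map_sub, eval_X, Sum.elim_inl, eval_rename]
    rfl
  have hd : ∀ (c p : σ → ℂ) (i j : σ), eval (Sum.elim c p) (pderiv (Sum.inr i) (Q j)) =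
      eval p (pderiv i (pderiv j h)) := by
    intro c p i j
    simp only [hQ, map_sub]
    rw [pderiv_X_of_ne (by simp), map_zero, sub_zero, pderiv_rename Sum.inr_injective,
      eval_rename]
    rfl
  have key := Pool.Agent.L5helper18.DC.zero_persists (s := σ) (ι := σ) (o := σ) rfl Q ck c hck p
    (by
      intro j
      rw [hev, h1 j, sub_self])
    (by
      intro z hz
      apply h2
      intro j
      rw [← hz j]
      exact Finset.sum_congr rfl fun i _ => by rw [hd]) U hU
  filter_upwards [key] with k hk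
  obtain ⟨p', hp', ha, hb⟩ := hk
  refine ⟨p', hp', ?_, ?_⟩
  · intro i
    have := ha i
    rw [hev] at this
    exact sub_eq_zero.1 this
  · intro z hz
    apply hb
    intro j
    rw [← hz j]
    exact Finset.sum_congr rfl fun i _ => by rw [hd]

theorem crit_generic_aux {σ : Type} [Fintype σ] [DecidableEq σ] (h : MvPolynomial σ ℂ)
    (q : MvPolynomial σ ℂ) (hq : q ≠ 0) (n : ℕ) : ∀ (c : σ → ℂ)
    (S : Finset (σ → ℂ)), Crit h c S → (∃ B ⊆ S, B.card = n ∧ ∀ p ∈ S, eval p q = 0 → p ∈ B) →
    ∃ (c' : σ → ℂ) (S' : Finset (σ → ℂ)), S'.card = S.card ∧ Crit h c' S' ∧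
      ∀ p ∈ S', eval p q ≠ 0 := by
  classical
  induction n with
  | zero =>
    intro c S hS hB
    obtain ⟨B, _, hB0, hB1⟩ := hB
    rw [Finset.card_eq_zero] at hB0
    subst hB0
    exact ⟨c, S, rfl, hS, fun p hp h0 => absurd (hB1 p hp h0) (Finset.notMem_empty p)⟩
  | succ n ih =>
    intro c S hS hB
    obtain ⟨B, hBS, hBn, hB1⟩ := hB
    obtain ⟨p₀, hp₀⟩ : B.Nonempty := by
      rw [← Finset.card_pos, hBn]
      exact Nat.succ_pos n
    have hp₀S : p₀ ∈ S := hBS hp₀
    obtain ⟨hS1, hS2⟩ := hS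
    -- the moving point
    have hx : ∀ k : ℕ, ∃ a' : σ → ℂ, (∀ j, ‖a' j - p₀ j‖ ≤ 1 / ((k : ℝ) + 1)) ∧ eval a' q ≠ 0 :=
      fun k => exists_near q hq p₀ (1 / ((k : ℝ) + 1)) (by positivity)
    choose x hx1 hx2 using hx
    have hxt : Tendsto x atTop (nhds p₀) := by
      rw [tendsto_pi_nhds]
      intro j
      rw [tendsto_iff_norm_sub_tendsto_zero]
      exact squeeze_zero (fun k => norm_nonneg _) (fun k => hx1 k j)
        tendsto_one_div_add_atTop_nhds_zero_nat
    set ck : ℕ → σ → ℂ := fun k i => eval (x k) (pderiv i h) with hck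
    have hckt : Tendsto ck atTop (nhds c) := by
      rw [tendsto_pi_nhds]
      intro i
      rw [← hS1 p₀ hp₀S i]
      exact ((MvPolynomial.continuous_eval (pderiv i h)).tendsto p₀).comp hxt
    obtain ⟨U, hU1, hU2⟩ := S.finite_toSet.t2_separation
    have hev : ∀ᶠ k in atTop, ∀ p ∈ S, ∃ p' ∈ U p, (∀ i, eval p' (pderiv i h) = ck k i) ∧
        NonDeg h p' ∧ (p ∉ B.erase p₀ → eval p' q ≠ 0) := by
      rw [Filter.eventually_all_finset]
      intro p hp
      by_cases hpp : p = p₀
      · subst hpp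
        filter_upwards [nonDeg_eventually h p (hS2 p hp) x hxt,
          hxt.eventually_mem ((hU1 p).2.mem_nhds (hU1 p).1)] with k hk1 hk2
        exact ⟨x k, hk2, fun i => rfl, hk1, fun _ => hx2 k⟩
      · by_cases hpB : p ∈ B
        · filter_upwards [crit_point_persists h c ck hckt p (hS1 p hp) (hS2 p hp) (U p)
            ((hU1 p).2.mem_nhds (hU1 p).1)] with k hk
          obtain ⟨p', h1, h2, h3⟩ := hk
          exact ⟨p', h1, h2, h3, fun hn => absurd (Finset.mem_erase.2 ⟨hpp, hpB⟩) hn⟩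
        · have hpq : eval p q ≠ 0 := fun h0 => hpB (hB1 p hp h0)
          have hV : U p ∩ {y | eval y q ≠ 0} ∈ nhds p := by
            apply Filter.inter_mem ((hU1 p).2.mem_nhds (hU1 p).1)
            exact (MvPolynomial.continuous_eval q).continuousAt.eventually_ne hpq
          filter_upwards [crit_point_persists h c ck hckt p (hS1 p hp) (hS2 p hp) _ hV] with k hk
          obtain ⟨p', h1, h2, h3⟩ := hk
          exact ⟨p', h1.1, h2, h3, fun _ => h1.2⟩
    obtain ⟨k, hk⟩ := hev.exists
    choose! g hg1 hg2 hg3 hg4 using hk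
    have hginj : Set.InjOn g S := by
      intro p hp p' hp' hpp
      by_contra hne
      have h2 := hU2 hp hp' hne
      exact Set.disjoint_left.1 h2 (hg1 p hp) (by rw [hpp]; exact hg1 p' hp')
    have hsub : B.erase p₀ ⊆ S := (Finset.erase_subset _ _).trans hBS
    have hcrit : Crit h (ck k) (S.image g) := by
      constructor
      · intro p hp i
        obtain ⟨p', hp', rfl⟩ := Finset.mem_image.1 hp
        exact hg2 p' hp' i
      · intro p hp z hz
        obtain ⟨p', hp', rfl⟩ := Finset.mem_image.1 hp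
        exact hg3 p' hp' z hz
    have hcard : ((B.erase p₀).image g).card = n := by
      rw [Finset.card_image_of_injOn (hginj.mono (by exact_mod_cast hsub)),
        Finset.card_erase_of_mem hp₀, hBn]
      rfl
    have hbad : ∀ p ∈ S.image g, eval p q = 0 → p ∈ (B.erase p₀).image g := by
      intro p hp h0
      obtain ⟨p', hp', rfl⟩ := Finset.mem_image.1 hp
      by_contra hn
      apply hg4 p' hp' _ h0
      intro hmem
      exact hn (Finset.mem_image_of_mem g hmem)
    obtain ⟨c', S', h1, h2, h3⟩ := ih (ck k) (S.image g) hcrit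
      ⟨(B.erase p₀).image g, Finset.image_subset_image hsub, hcard, hbad⟩
    refine ⟨c', S', ?_, h2, h3⟩
    rw [h1, Finset.card_image_of_injOn hginj]

/-- L4 -/
theorem crit_generic {σ : Type} [Fintype σ] [DecidableEq σ] (h : MvPolynomial σ ℂ) (c : σ → ℂ)
    (S : Finset (σ → ℂ)) (hS : Crit h c S) (q : MvPolynomial σ ℂ) (hq : q ≠ 0) :
    ∃ (c' : σ → ℂ) (S' : Finset (σ → ℂ)), S'.card = S.card ∧ Crit h c' S' ∧
      ∀ p ∈ S', eval p q ≠ 0 :=
  crit_generic_aux h q hq S.card c S hS ⟨S, Finset.Subset.refl S, rfl, fun _ hp _ => hp⟩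

end Pool.Agent.L5helper59.ZT
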